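import Mathlib
import Pool.Agent.N290.RM.Stm
import Pool.Agent.N290.RJ.Stm

/-!
# Project RM: from local to global solvability, general weights
-/

set_option autoImplicit false

open Complex MeasureTheory Set Filter Topology
open scoped ENNReal

namespace Pool.Agent.N285.RM

open Pool.Agent.N290.RJ Pool.Agent.N290.RK Pool.Agent.N290.RL Pool.Agent.N290.RM

variable {d : ℕ}

/-- the mean of two weights -/
theorem AW_mid {a b : E d → ℝ} (ha : AW a) (hb : AW b) :
    AW (fun z => (1 / 2 : ℝ) * (a z + b z)) := by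
  refine ⟨contDiffOn_const.mul (ha.a1.add hb.a1), fun z hz => ?_, fun z hz ξ => ?_⟩
  · have h1 := ha.a2 z hz
    have h2 := hb.a2 z hz
    constructor <;> linarith [h1.1, h1.2, h2.1, h2.2]
  · have d1 : DifferentiableAt ℝ a z :=
      (ha.a1.differentiableOn one_ne_zero).differentiableAt (B_open.mem_nhds hz)
    have d2 : DifferentiableAt ℝ b z :=
      (hb.a1.differentiableOn one_ne_zero).differentiableAt (B_open.mem_nhds hz)
    have e : fderiv ℝ (fun z => (1 / 2 : ℝ) * (a z + b z)) z ξ =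
        (1 / 2 : ℝ) * (fderiv ℝ a z ξ + fderiv ℝ b z ξ) := by
      have h1 : HasFDerivAt (fun z => (1 / 2 : ℝ) * (a z + b z))
          ((1 / 2 : ℝ) • (fderiv ℝ a z + fderiv ℝ b z)) z :=
        (d1.hasFDerivAt.add d2.hasFDerivAt).const_mul (1 / 2 : ℝ)
      rw [h1.fderiv]
      simp
      ring
    rw [e, abs_mul, abs_of_pos (by norm_num : (0 : ℝ) < 1 / 2)]
    have h1 := ha.a3 z hz ξ
    have h2 := hb.a3 z hz ξ
    have h3 := abs_add_le (fderiv ℝ a z ξ) (fderiv ℝ b z ξ)
    nlinarith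

theorem ker_meas (z : E d) : Measurable (fun w => ker z w) := by
  have h1 : Continuous (fun w : E d => ip z w) :=
    ip_continuous.comp (continuous_const.prodMk continuous_id)
  have h2 : Continuous (fun w : E d => ‖1 - ip z w‖) := (continuous_const.sub h1).norm
  have h3 : Continuous (fun w : E d => Real.sqrt (Dl z w)) := by
    unfold Dl
    exact Real.continuous_sqrt.comp
      ((h2.pow 2).sub (continuous_const.mul (continuous_const.sub N_continuous)))
  unfold Pool.Agent.N290.RJ.ker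
  exact (h2.pow d).measurable.div (h2.mul (h3.pow _)).measurable

theorem bw_meas : Measurable (bw : E d → ℝ) := by
  unfold bw
  exact (measurable_const.sub N_continuous.measurable).pow_const _

theorem Tail_mid {a : E d → ℝ} {τ τb : ℝ → ℝ} (ha : Tail τ a) (hb : Tail τb (bw : E d → ℝ)) :
    Tail (fun t => |τ t| + |τb t|) (fun z => (1 / 2 : ℝ) * (a z + bw z)) := by
  intro κ hκ z hz
  have hm : Measurable (fun w : E d =>
      ENNReal.ofReal ((if 1 - N w ≤ κ then bw w ^ 2 else 0) * ker z w)) := by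
    refine ENNReal.measurable_ofReal.comp (Measurable.mul ?_ (ker_meas z))
    refine Measurable.ite ?_ (bw_meas.pow_const 2) measurable_const
    exact (isClosed_le (continuous_const.sub N_continuous) continuous_const).measurableSet
  calc ∫⁻ w in B d, ENNReal.ofReal ((if 1 - N w ≤ κ then
        ((1 / 2 : ℝ) * (a w + bw w)) ^ 2 else 0) * ker z w)
      ≤ ∫⁻ w in B d, (ENNReal.ofReal ((if 1 - N w ≤ κ then a w ^ 2 else 0) * ker z w) +
        ENNReal.ofReal ((if 1 - N w ≤ κ then bw w ^ 2 else 0) * ker z w)) := by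
        refine lintegral_mono fun w => ?_
        have hk := ker_nonneg z w
        rw [← ENNReal.ofReal_add]
        · refine ENNReal.ofReal_le_ofReal ?_
          rw [← add_mul]
          refine mul_le_mul_of_nonneg_right ?_ hk
          split_ifs
          · nlinarith [sq_nonneg (a w - bw w), sq_nonneg (a w), sq_nonneg (bw w)]
          · simp
        · split_ifs <;> positivity
        · split_ifs <;> positivity
    _ = (∫⁻ w in B d, ENNReal.ofReal ((if 1 - N w ≤ κ then a w ^ 2 else 0) * ker z w)) +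
        ∫⁻ w in B d, ENNReal.ofReal ((if 1 - N w ≤ κ then bw w ^ 2 else 0) * ker z w) :=
        lintegral_add_right _ hm
    _ ≤ ENNReal.ofReal (τ κ) + ENNReal.ofReal (τb κ) := add_le_add (ha κ hκ z hz) (hb κ hκ z hz)
    _ ≤ ENNReal.ofReal |τ κ| + ENNReal.ofReal |τb κ| :=
        add_le_add (ENNReal.ofReal_le_ofReal (le_abs_self _))
          (ENNReal.ofReal_le_ofReal (le_abs_self _))
    _ = ENNReal.ofReal (|τ κ| + |τb κ|) :=
        (ENNReal.ofReal_add (abs_nonneg _) (abs_nonneg _)).symm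

theorem Van_abs_add {τ τb : ℝ → ℝ} (h : Van τ) (h' : Van τb) : Van (fun t => |τ t| + |τb t|) := by
  have h1 := h.abs.add h'.abs
  rw [abs_zero, add_zero] at h1
  exact h1

theorem Van_sqrt {τ : ℝ → ℝ} (C : ℝ) (h : Van τ) :
    Van (fun t => Real.sqrt (C * |τ (4 * t)|)) := by
  have h0 : Tendsto (fun t : ℝ => 4 * t) (𝓝[>] 0) (𝓝[>] 0) := by
    refine tendsto_nhdsWithin_iff.2 ⟨?_, ?_⟩
    · have : Tendsto (fun t : ℝ => 4 * t) (𝓝 0) (𝓝 (4 * 0)) := (continuous_const.mul continuous_id).tendsto 0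
      rw [mul_zero] at this
      exact this.mono_left nhdsWithin_le_nhds
    · filter_upwards [self_mem_nhdsWithin] with t ht
      have : (0 : ℝ) < t := ht
      exact mul_pos (by norm_num) this
  have h1 : Tendsto (fun t => C * |τ (4 * t)|) (𝓝[>] 0) (𝓝 (C * |0|)) :=
    ((h.comp h0).abs).const_mul C
  have h2 := (Real.continuous_sqrt.tendsto _).comp h1
  rw [abs_zero, mul_zero, Real.sqrt_zero] at h2
  exact h2

/-- the conditions for the halved functions -/
theorem Arb_half {M L : ℕ} {ε A : ℝ} {f : Fin M → E d → ℂ} {G κ : Fin L → E d → ℂ}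
    (h : Arb ε A f G κ) : Arb (ε / 2) A (fun j z => (2 : ℂ)⁻¹ * f j z) G κ := by
  have hn : ∀ j (z : E d), ‖(2 : ℂ)⁻¹ * f j z‖ = ‖f j z‖ / 2 := by
    intro j z
    rw [norm_mul, norm_inv]
    norm_num
    ring
  have hiff : ∀ z : E d, (∀ j, ‖(2 : ℂ)⁻¹ * f j z‖ < ε / 2) ↔ ∀ j, ‖f j z‖ < ε := by
    intro z
    constructor
    · intro h j
      have := h j
      rw [hn] at this
      linarith
    · intro h j
      have := h j
      rw [hn]
      linarith
  refine ⟨fun j => (h.f1 j).const_mul _, fun j z hz => ?_, h.g1, h.g2, fun l => ?_,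
    fun l z hz hj => h.k2 l z hz ((hiff z).1 hj), fun z hz hj => h.k3 z hz ((hiff z).1 hj)⟩
  · rw [hn]
    have := h.f2 j z hz
    linarith
  · have e : {z : E d | z ∈ B d ∧ ∀ j, ‖(2 : ℂ)⁻¹ * f j z‖ < ε / 2} =
        {z | z ∈ B d ∧ ∀ j, ‖f j z‖ < ε} := by
      ext z
      exact and_congr_right fun _ => hiff z
    rw [e]
    exact h.k1 l

theorem GBG_of (d : ℕ) (hK : KS d) (hB : BW d) (hT : LTG d) (h4 : D4N d) (hL : LOC d) :
    GBG d := by
  intro M L ε' A τ₀ hε' hτ₀
  obtain ⟨hbw, τb, hτb, hTb⟩ := hB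
  obtain ⟨CK, hCK, hK⟩ := hK
  set τ : ℝ → ℝ := fun t => |τ₀ t| + |τb t| with hτdef
  have hτ : Van τ := Van_abs_add hτ₀ hτb
  set σ : ℝ → ℝ := fun t => Real.sqrt (CK * |τ (4 * t)|) with hσdef
  have hσ : Van σ := Van_sqrt CK hτ
  set ε : ℝ := ε' / 2 with hεdef
  have hε : 0 < ε := by positivity
  obtain ⟨C, ρ, hρ, hT⟩ := hT M L ε A τ σ hε hτ hσ
  have hA1 : 0 < |A| + 1 := by positivity
  obtain ⟨C', hC'⟩ := hL (M + L) (min ε (1 / (|A| + 1)))
    {q : (Fin M → E d → ℂ) × (Fin L → E d → ℂ) × (Fin L → E d → ℂ) // Arb ε A q.1 q.2.1 q.2.2 ∧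
      ∃ a : E d → ℝ, AW a ∧ Tail τ a ∧ (∀ z ∈ B d, a z ≤ σ (1 - N z)) ∧
        (∀ z ∈ B d, bw z / 2 ≤ a z) ∧
        ∀ j, ∀ z ∈ B d, ∀ ξ, ‖fderiv ℂ (q.1 j) z ξ‖ ≤ a z * len z ξ}
    (fun q => Fin.append q.1.1 q.1.2.1) (lt_min hε (by positivity))
    (by
      rintro ⟨⟨f, G, κ⟩, hA, hf⟩ j
      refine Fin.addCases (fun i => ?_) (fun i => ?_) j
      · simpa only [Fin.append_left] using hA.f1 i
      · simpa only [Fin.append_right] using hA.g1 i)
    (by
      rintro ⟨⟨f, G, κ⟩, hA, hf⟩ j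
      refine Fin.addCases (fun i => ?_) (fun i => ?_) j
      · simpa only [Fin.append_left] using hA.f2 i
      · simpa only [Fin.append_right] using hA.g2 i)
    (by
      rintro ⟨⟨f, G, κ⟩, hA, hf⟩ z hz
      simp only [Fin.sum_univ_add, Fin.append_left, Fin.append_right]
      have hs1 : 0 ≤ ∑ i, ‖f i z‖ := Finset.sum_nonneg fun i _ => norm_nonneg _
      have hs2 : 0 ≤ ∑ i, ‖G i z‖ := Finset.sum_nonneg fun i _ => norm_nonneg _
      by_cases hsm : ∀ j, ‖f j z‖ < ε
      · have h1 := hA.k3 z hz hsm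
        have h2 : (1 : ℝ) ≤ ∑ l, ‖G l z‖ * |A| := by
          calc (1 : ℝ) = ‖∑ l, G l z * κ l z‖ := by rw [h1, norm_one]
            _ ≤ ∑ l, ‖G l z * κ l z‖ := norm_sum_le _ _
            _ ≤ ∑ l, ‖G l z‖ * |A| := Finset.sum_le_sum fun l _ => by
              rw [norm_mul]
              exact mul_le_mul_of_nonneg_left ((hA.k2 l z hz hsm).trans (le_abs_self A))
                (norm_nonneg _)
        rw [← Finset.sum_mul] at h2
        have h3 : 1 / (|A| + 1) ≤ ∑ l, ‖G l z‖ := by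
          rw [div_le_iff₀ hA1]
          nlinarith
        exact (min_le_right _ _).trans (h3.trans (by linarith))
      · push Not at hsm
        obtain ⟨j, hj⟩ := hsm
        have h1 := Finset.single_le_sum (f := fun j => ‖f j z‖) (fun i _ => norm_nonneg _)
          (Finset.mem_univ j)
        exact (min_le_left _ _).trans (hj.trans (h1.trans (by linarith))))
    (by
      intro p hp
      refine ⟨ρ, C, hρ, ?_⟩
      rintro ⟨⟨f, G, κ⟩, hA, a, ha1, ha2, ha3, ha4, ha5⟩
      refine h4 (M + L) C ρ p (Fin.append f G) (fun j => ?_) fun k => ?_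
      · refine Fin.addCases (fun i => ?_) (fun i => ?_) j
        · simpa only [Fin.append_left] using hA.f1 i
        · simpa only [Fin.append_right] using hA.g1 i
      · obtain ⟨g, h, hg, hh, hgh⟩ := hT p hp f G κ a hA ha1 ha2 ha3 ha4 ha5 k
        refine ⟨Fin.append g h, fun j => ?_, fun z hz hz2 => ?_⟩
        · refine Fin.addCases (fun i => ?_) (fun i => ?_) j
          · simpa only [Fin.append_left] using hg i
          · simpa only [Fin.append_right] using hh i
        · obtain ⟨h1, h2, h3⟩ := hgh z hz hz2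
          refine ⟨fun j => ?_, ?_⟩
          · refine Fin.addCases (fun i => ?_) (fun i => ?_) j
            · simpa only [Fin.append_left] using h1 i
            · simpa only [Fin.append_right] using h2 i
          · simp only [Fin.sum_univ_add, Fin.append_left, Fin.append_right]
            exact h3)
  refine ⟨C', fun f G κ a hA hAW hTail hf => ?_⟩
  have hAW' : AW (fun z => (1 / 2 : ℝ) * (a z + bw z)) := AW_mid hAW hbw
  have hTail' : Tail τ (fun z => (1 / 2 : ℝ) * (a z + bw z)) := Tail_mid hTail hTb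
  have hs : ∀ z ∈ B d, (1 / 2 : ℝ) * (a z + bw z) ≤ σ (1 - N z) := by
    intro z hz
    have h1 := hK τ _ hAW' hTail' z hz
    exact Real.le_sqrt_of_sq_le h1
  have hlow : ∀ z ∈ B d, bw z / 2 ≤ (1 / 2 : ℝ) * (a z + bw z) := by
    intro z hz
    have := (hAW.a2 z hz).1
    linarith
  have hder : ∀ j, ∀ z ∈ B d, ∀ ξ, ‖fderiv ℂ (fun z => (2 : ℂ)⁻¹ * f j z) z ξ‖ ≤
      (1 / 2 : ℝ) * (a z + bw z) * len z ξ := by
    intro j z hz ξ
    have d1 : DifferentiableAt ℂ (f j) z := (hA.f1 j).differentiableAt (B_open.mem_nhds hz)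
    have e : fderiv ℂ (fun z => (2 : ℂ)⁻¹ * f j z) z ξ = (2 : ℂ)⁻¹ * fderiv ℂ (f j) z ξ := by
      rw [(d1.hasFDerivAt.const_mul ((2 : ℂ)⁻¹)).fderiv]
      simp
    rw [e, norm_mul, norm_inv]
    have h1 := hf j z hz ξ
    have h2 := (hbw.a2 z hz).1
    have h3 := len_nonneg z ξ
    have h4 : 0 ≤ bw z * len z ξ := mul_nonneg h2.le h3
    norm_num
    linarith
  obtain ⟨g, hg, hgz⟩ := hC' ⟨(fun j z => (2 : ℂ)⁻¹ * f j z, G, κ), Arb_half hA,
    fun z => (1 / 2 : ℝ) * (a z + bw z), hAW', hTail', hs, hlow, hder⟩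
  refine ⟨fun j z => (2 : ℂ)⁻¹ * g (Fin.castAdd L j) z, fun l => g (Fin.natAdd M l),
    fun j => (hg _).const_mul _, fun l => hg _,
    fun z hz => ⟨fun j => ?_, fun l => (hgz z hz).1 _, ?_⟩⟩
  · have h1 := (hgz z hz).1 (Fin.castAdd L j)
    have h2 := norm_nonneg (g (Fin.castAdd L j) z)
    rw [norm_mul, norm_inv]
    norm_num
    linarith
  · have h1 := (hgz z hz).2
    simp only [Fin.sum_univ_add, Fin.append_left, Fin.append_right] at h1
    rw [← h1]
    congr 1
    exact Finset.sum_congr rfl fun j _ => by ring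

end Pool.Agent.N285.RM
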